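import Mathlib
import Pool.Agent.Helper9.Fam.Mertens

/-!
A lower bound for sums of multiplicative functions over squarefree numbers.
-/

set_option autoImplicit false

open Finset Filter

namespace Pool.Agent.Helper78.SV

open Pool.Agent.Helper9.Fam (pr mem_pr mertens_two)

/-- products of at most `k` primes of `P` are squarefree numbers up to `Q` -/
theorem sum_subsets_le (g : ℕ → ℝ) (hg : ∀ p : ℕ, p.Prime → 0 ≤ g p) (P : Finset ℕ)
    (hP : ∀ p ∈ P, p.Prime) (z k Q : ℕ) (hz : ∀ p ∈ P, p ≤ z) (hz1 : 1 ≤ z) (hQ : z ^ k ≤ Q) :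
    ∑ T ∈ P.powerset.filter (fun T => T.card ≤ k), ∏ p ∈ T, g p ≤
      ∑ q ∈ (Icc 1 Q).filter Squarefree, ∏ p ∈ q.primeFactors, g p := by
  classical
  have hprime : ∀ T ∈ P.powerset.filter (fun T => T.card ≤ k), ∀ p ∈ T, p.Prime := by
    intro T hT p hp
    exact hP p (mem_powerset.1 (mem_filter.1 hT).1 hp)
  have hinj : Set.InjOn (fun T : Finset ℕ => ∏ p ∈ T, p)
      (P.powerset.filter (fun T => T.card ≤ k) : Finset (Finset ℕ)) := by
    intro T hT T' hT' h
    have h1 := Nat.primeFactors_prod (hprime T (mem_coe.1 hT))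
    have h2 := Nat.primeFactors_prod (hprime T' (mem_coe.1 hT'))
    rw [← h1, ← h2]
    exact congrArg Nat.primeFactors h
  have himg : (P.powerset.filter (fun T => T.card ≤ k)).image (fun T : Finset ℕ => ∏ p ∈ T, p) ⊆
      (Icc 1 Q).filter Squarefree := by
    intro q hq
    obtain ⟨T, hT, rfl⟩ := mem_image.1 hq
    have hTp := hprime T hT
    rw [mem_filter, mem_Icc]
    refine ⟨⟨Nat.one_le_iff_ne_zero.2 (prod_ne_zero_iff.2 fun p hp => (hTp p hp).ne_zero), ?_⟩, ?_⟩
    · calc ∏ p ∈ T, p ≤ ∏ _p ∈ T, z :=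
            prod_le_prod' fun p hp => hz p (mem_powerset.1 (mem_filter.1 hT).1 hp)
        _ = z ^ T.card := by rw [prod_const]
        _ ≤ z ^ k := Nat.pow_le_pow_right hz1 (mem_filter.1 hT).2
        _ ≤ Q := hQ
    · have hpf := Nat.primeFactors_prod hTp
      rw [Nat.squarefree_iff_prime_squarefree]
      intro p hp hpp
      have hpT : p ∈ T := by
        rw [← hpf, Nat.mem_primeFactors]
        exact ⟨hp, dvd_trans (dvd_mul_right p p) hpp,
          prod_ne_zero_iff.2 fun p hp => (hTp p hp).ne_zero⟩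
      rw [← mul_prod_erase T (fun p => p) hpT] at hpp
      have h3 : p ∣ ∏ r ∈ T.erase p, r := Nat.dvd_of_mul_dvd_mul_left hp.pos hpp
      obtain ⟨r, hr, hpr⟩ := (Prime.dvd_finsetProd_iff hp.prime _).1 h3
      have h4 := (Nat.prime_dvd_prime_iff_eq hp (hTp r (mem_of_mem_erase hr))).1 hpr
      exact (mem_erase.1 hr).1 h4.symm
  calc ∑ T ∈ P.powerset.filter (fun T => T.card ≤ k), ∏ p ∈ T, g p
      = ∑ q ∈ (P.powerset.filter (fun T => T.card ≤ k)).image (fun T : Finset ℕ => ∏ p ∈ T, p),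
          ∏ p ∈ q.primeFactors, g p := by
        rw [sum_image hinj]
        refine sum_congr rfl fun T hT => ?_
        rw [Nat.primeFactors_prod (hprime T hT)]
    _ ≤ _ := by
        refine sum_le_sum_of_subset_of_nonneg himg fun q hq _ => ?_
        exact prod_nonneg fun p hp => hg p (Nat.prime_of_mem_primeFactors hp)

/-- Rankin's trick for subsets -/
theorem rankin (P : Finset ℕ) (f : ℕ → ℝ) (hf : ∀ p ∈ P, 0 ≤ f p) (k : ℕ) :
    ∏ p ∈ P, (1 + f p) - (1 / 2) ^ k * ∏ p ∈ P, (1 + 2 * f p) ≤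
      ∑ T ∈ P.powerset.filter (fun T => T.card ≤ k), ∏ p ∈ T, f p := by
  classical
  have h1 : ∏ p ∈ P, (1 + f p) = ∑ T ∈ P.powerset.filter (fun T => T.card ≤ k), ∏ p ∈ T, f p +
      ∑ T ∈ P.powerset.filter (fun T => ¬ T.card ≤ k), ∏ p ∈ T, f p := by
    rw [prod_one_add, sum_filter_add_sum_filter_not]
  have h2 : ∑ T ∈ P.powerset.filter (fun T => ¬ T.card ≤ k), ∏ p ∈ T, f p ≤
      (1 / 2) ^ k * ∏ p ∈ P, (1 + 2 * f p) := by
    rw [prod_one_add, mul_sum]
    refine (sum_le_sum (g := fun T => (1 / 2 : ℝ) ^ k * ∏ p ∈ T, 2 * f p) ?_).trans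
      (sum_le_sum_of_subset_of_nonneg (filter_subset _ _) ?_)
    · intro T hT
      have hT1 := mem_powerset.1 (mem_filter.1 hT).1
      have hT2 : k ≤ T.card := (not_le.1 (mem_filter.1 hT).2).le
      have h0 : 0 ≤ ∏ p ∈ T, f p := prod_nonneg fun p hp => hf p (hT1 hp)
      show ∏ p ∈ T, f p ≤ (1 / 2 : ℝ) ^ k * ∏ p ∈ T, 2 * f p
      rw [prod_mul_distrib, prod_const, ← mul_assoc]
      have h3 : (1 : ℝ) ≤ (1 / 2) ^ k * 2 ^ T.card := by
        calc (1 : ℝ) = (1 / 2) ^ k * 2 ^ k := by rw [← mul_pow]; norm_num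
          _ ≤ _ := mul_le_mul_of_nonneg_left (pow_le_pow_right₀ (by norm_num) hT2) (by positivity)
      nlinarith
    · intro T hT _
      refine mul_nonneg (by positivity) (prod_nonneg fun p hp => ?_)
      have := hf p (mem_powerset.1 hT hp)
      positivity
  linarith

/-- the Euler product from below -/
theorem prod_lower (P : Finset ℕ) (f : ℕ → ℝ) (hf : ∀ p ∈ P, 0 ≤ f p) :
    Real.exp (∑ p ∈ P, f p - ∑ p ∈ P, f p ^ 2) ≤ ∏ p ∈ P, (1 + f p) := by
  rw [← sum_sub_distrib, Real.exp_sum]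
  refine prod_le_prod (fun p _ => (Real.exp_pos _).le) fun p hp => ?_
  have h0 := hf p hp
  rw [← Real.le_log_iff_exp_le (by linarith)]
  refine le_trans ?_ (Real.one_sub_inv_le_log_of_pos (by linarith))
  have h1 : (1 : ℝ) - (1 + f p)⁻¹ = f p / (1 + f p) := by
    field_simp
    ring
  rw [h1, le_div_iff₀ (by linarith)]
  nlinarith [pow_nonneg h0 3]

/-- the Euler product from above -/
theorem prod_upper (P : Finset ℕ) (f : ℕ → ℝ) (hf : ∀ p ∈ P, 0 ≤ f p) :
    ∏ p ∈ P, (1 + 2 * f p) ≤ Real.exp (2 * ∑ p ∈ P, f p) := by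
  rw [mul_sum, Real.exp_sum]
  refine prod_le_prod (fun p hp => ?_) fun p _ => ?_
  · have := hf p hp
    linarith
  · have := Real.add_one_le_exp (2 * f p)
    linarith

theorem sum_sq_le (n : ℕ) : ∑ p ∈ pr n, (1 / (p : ℝ)) ^ 2 ≤ 2 := by
  have h : ∀ n : ℕ, 1 ≤ n → ∑ p ∈ Icc 1 n, (1 / (p : ℝ)) ^ 2 ≤ 2 - 1 / (n : ℝ) := by
    intro n hn
    induction n, hn using Nat.le_induction with
    | base => norm_num
    | succ n hn ih =>
      rw [sum_Icc_succ_top (by omega)]
      have h0 : (0 : ℝ) < n := by exact_mod_cast hn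
      push_cast
      have h2 : (1 / ((n : ℝ) + 1)) ^ 2 ≤ 1 / (n : ℝ) - 1 / ((n : ℝ) + 1) := by
        have h3 : 1 / (n : ℝ) - 1 / ((n : ℝ) + 1) = 1 / (n * ((n : ℝ) + 1)) := by
          field_simp
          ring
        rw [h3, one_div_pow]
        exact one_div_le_one_div_of_le (by positivity) (by nlinarith)
      linarith
  rcases Nat.eq_zero_or_pos n with rfl | hn
  · have : pr 0 = ∅ := by
      ext r
      simp only [mem_pr, notMem_empty, iff_false]
      rintro ⟨h1, h2⟩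
      exact absurd h1.pos (by omega)
    rw [this, sum_empty]
    norm_num
  · have h1 : (0 : ℝ) < n := by exact_mod_cast hn
    refine (sum_le_sum_of_subset_of_nonneg ?_ fun _ _ _ => by positivity).trans
      ((h n hn).trans ?_)
    · intro p hp
      rw [mem_pr] at hp
      exact mem_Icc.2 ⟨hp.1.one_le, hp.2⟩
    · have : (0 : ℝ) ≤ 1 / n := by positivity
      linarith

/-- the sum over squarefree numbers: if `g p ≥ η / p` for all primes `p > p0` then the sum of
`∏ g p` over the squarefree `q ≤ Q` is at least `c (log Q / log log Q) ^ η` -/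
theorem sum_lower_weak (η : ℝ) (hη : 0 < η) (p0 : ℕ) : ∃ c : ℝ, 0 < c ∧ ∃ Q0 : ℕ, ∀ g : ℕ → ℝ,
    (∀ p : ℕ, p.Prime → 0 ≤ g p) → (∀ p : ℕ, p.Prime → p0 < p → η / p ≤ g p) →
    ∀ Q : ℕ, Q0 ≤ Q → c * (Real.log Q / Real.log (Real.log Q)) ^ η ≤
      ∑ q ∈ (Icc 1 Q).filter Squarefree, ∏ p ∈ q.primeFactors, g p := by
  classical
  obtain ⟨C, hC0, hC⟩ := mertens_two
  set H : ℝ := ∑ p ∈ pr p0, 1 / (p : ℝ) with hH
  have hH0 : 0 ≤ H := sum_nonneg fun _ _ => by positivity
  have hl2 : 0 < Real.log 2 := Real.log_pos (by norm_num)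
  set K1 : ℝ := (η * (1 + C) + 2 * η ^ 2 + 1) / Real.log 2 with hK1
  have hK1p : 0 < K1 := by positivity
  have hev1 : ∀ᶠ y : ℝ in atTop, 2 * (K1 + 1) * Real.log y ≤ y := by
    have h := Real.isLittleO_log_id_atTop.bound (show (0 : ℝ) < 1 / (2 * (K1 + 1)) by positivity)
    filter_upwards [h, eventually_ge_atTop (1 : ℝ)] with y hy hy1
    rw [Real.norm_of_nonneg (Real.log_nonneg hy1), id, Real.norm_of_nonneg (by linarith)] at hy
    have : 2 * (K1 + 1) * Real.log y ≤ 2 * (K1 + 1) * (1 / (2 * (K1 + 1)) * y) :=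
      mul_le_mul_of_nonneg_left hy (by positivity)
    refine this.trans (le_of_eq ?_)
    field_simp
  have hev2 : ∀ᶠ y : ℝ in atTop, (1 : ℝ) ≤ Real.log y := Real.tendsto_log_atTop.eventually_ge_atTop 1
  have htend : Tendsto (fun Q : ℕ => Real.log (Q : ℝ)) atTop atTop :=
    Real.tendsto_log_atTop.comp tendsto_natCast_atTop_atTop
  obtain ⟨Q0, hQ0⟩ := eventually_atTop.1
    ((htend.eventually (hev1.and hev2)).and (eventually_ge_atTop 3))
  refine ⟨1 / 2 * Real.exp (-(η * (C + H)) - 2 * η ^ 2) * (1 / (2 * (K1 + 1))) ^ η, by positivity,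
    Q0, fun g hg0 hg Q hQ => ?_⟩
  obtain ⟨⟨hL, hll⟩, hQ3⟩ := hQ0 Q hQ
  set L : ℝ := Real.log Q with hLdef
  set ll : ℝ := Real.log L with hlldef
  have hQpos : (0 : ℝ) < Q := by exact_mod_cast (by omega : 0 < Q)
  have hllpos : 0 < ll := by linarith
  have hLpos : 0 < L := by
    by_contra hcon
    nlinarith
  have hL2 : 2 ≤ L := by nlinarith
  -- the parameters
  set k : ℕ := ⌈K1 * ll⌉₊ with hk
  have hk1 : K1 * ll ≤ k := Nat.le_ceil _
  have hk2 : (k : ℝ) ≤ (K1 + 1) * ll := by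
    have := (Nat.ceil_lt_add_one (show 0 ≤ K1 * ll by positivity)).le
    rw [← hk] at this
    nlinarith
  have hk0 : (0 : ℝ) < k := lt_of_lt_of_le (by positivity) hk1
  have hLk : 2 ≤ L / k := by
    rw [le_div_iff₀ hk0]
    nlinarith
  set y : ℝ := Real.exp (L / k) with hy
  have hy7 : 4 ≤ y := by
    have h1 : Real.exp 2 ≤ y := Real.exp_le_exp.2 hLk
    have h2 : (2.7 : ℝ) ≤ Real.exp 1 := by
      have := Real.exp_one_gt_d9
      linarith
    have h3 : Real.exp 2 = Real.exp 1 * Real.exp 1 := by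
      rw [← Real.exp_add]
      norm_num
    nlinarith
  set z : ℕ := ⌊y⌋₊ with hz
  have hz1 : (z : ℝ) ≤ y := Nat.floor_le (by linarith)
  have hz2 : y / 2 ≤ z := by
    have := Nat.lt_floor_add_one y
    rw [← hz] at this
    linarith
  have hz3 : 2 ≤ z := by
    have : (2 : ℝ) ≤ z := by linarith
    exact_mod_cast this
  have hzk : z ^ k ≤ Q := by
    have h1 : ((z : ℝ)) ^ k ≤ y ^ k := pow_le_pow_left₀ (by positivity) hz1 k
    have h2 : y ^ k = Q := by
      rw [hy, ← Real.exp_nat_mul]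
      have : (k : ℝ) * (L / k) = L := by field_simp
      rw [this, hLdef, Real.exp_log hQpos]
    rw [h2] at h1
    exact_mod_cast h1
  have hlogz1 : L / (2 * (K1 + 1) * ll) ≤ Real.log z := by
    have h1 : Real.log (y / 2) ≤ Real.log z := Real.log_le_log (by linarith) hz2
    rw [Real.log_div (by linarith) (by norm_num), hy, Real.log_exp] at h1
    have h2 : Real.log 2 ≤ 1 := by
      have := Real.log_two_lt_d9
      linarith
    have h3 : L / (2 * (K1 + 1) * ll) ≤ L / (2 * k) := by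
      apply div_le_div_of_nonneg_left hLpos.le (by positivity)
      nlinarith
    have h4 : L / (2 * k) = L / k / 2 := by
      rw [div_div]
      ring_nf
    linarith
  have hlogz2 : Real.log z ≤ L := by
    refine Real.log_le_log (by exact_mod_cast (by omega : 0 < z)) ?_
    have h1 : z ≤ z ^ k := Nat.le_self_pow (by
      intro h
      rw [h] at hk0
      simp at hk0) z
    exact_mod_cast h1.trans hzk
  have hlogz0 : 0 < Real.log z := Real.log_pos (by exact_mod_cast (by omega : 1 < z))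
  -- the primes
  set P : Finset ℕ := (pr z).filter (fun p => p0 < p) with hP
  have hPp : ∀ p ∈ P, p.Prime := fun p hp => (mem_pr.1 (mem_filter.1 hp).1).1
  set f : ℕ → ℝ := fun p => η / p with hf
  have hf0 : ∀ p ∈ P, 0 ≤ f p := fun p _ => by
    simp only [hf]
    positivity
  have hsum : ∑ p ∈ P, f p = η * ∑ p ∈ P, 1 / (p : ℝ) := by
    rw [mul_sum]
    refine sum_congr rfl fun p _ => ?_
    simp only [hf]
    ring
  have hm := abs_le.1 (hC z hz3)
  have hs1 : ∑ p ∈ P, f p ≤ η * (ll + C) := by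
    rw [hsum]
    refine mul_le_mul_of_nonneg_left ?_ hη.le
    have h1 : ∑ p ∈ P, 1 / (p : ℝ) ≤ ∑ p ∈ pr z, 1 / (p : ℝ) :=
      sum_le_sum_of_subset_of_nonneg (filter_subset _ _) fun _ _ _ => by positivity
    have h2 : Real.log (Real.log z) ≤ ll := Real.log_le_log hlogz0 hlogz2
    linarith [hm.2]
  have hs2 : η * (Real.log (Real.log z) - C - H) ≤ ∑ p ∈ P, f p := by
    rw [hsum]
    refine mul_le_mul_of_nonneg_left ?_ hη.le
    have h1 : ∑ p ∈ pr z, 1 / (p : ℝ) ≤ ∑ p ∈ P, 1 / (p : ℝ) + H := by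
      rw [← sum_filter_add_sum_filter_not (pr z) (fun p => p0 < p), ← hP]
      have h2 : ∑ p ∈ (pr z).filter (fun p => ¬ p0 < p), 1 / (p : ℝ) ≤ H := by
        refine sum_le_sum_of_subset_of_nonneg ?_ fun _ _ _ => by positivity
        intro p hp
        rw [mem_filter, mem_pr] at hp
        rw [mem_pr]
        exact ⟨hp.1.1, not_lt.1 hp.2⟩
      linarith
    linarith [hm.1]
  have hs3 : ∑ p ∈ P, f p ^ 2 ≤ 2 * η ^ 2 := by
    have h1 : ∑ p ∈ P, f p ^ 2 = η ^ 2 * ∑ p ∈ P, (1 / (p : ℝ)) ^ 2 := by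
      rw [mul_sum]
      refine sum_congr rfl fun p _ => ?_
      simp only [hf]
      ring
    have h2 : ∑ p ∈ P, (1 / (p : ℝ)) ^ 2 ≤ 2 :=
      (sum_le_sum_of_subset_of_nonneg (filter_subset _ _) fun _ _ _ => by positivity).trans
        (sum_sq_le z)
    rw [h1]
    nlinarith [sq_nonneg η]
  -- the estimate
  set s : ℝ := ∑ p ∈ P, f p with hs
  have hmain : 1 / 2 * Real.exp (s - 2 * η ^ 2) ≤
      ∑ q ∈ (Icc 1 Q).filter Squarefree, ∏ p ∈ q.primeFactors, g p := by
    have h1 := sum_subsets_le g hg0 P hPp z k Q (fun p hp => (mem_pr.1 (mem_filter.1 hp).1).2)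
      (by omega) hzk
    have h2 : ∑ T ∈ P.powerset.filter (fun T => T.card ≤ k), ∏ p ∈ T, f p ≤
        ∑ T ∈ P.powerset.filter (fun T => T.card ≤ k), ∏ p ∈ T, g p := by
      refine sum_le_sum fun T hT => prod_le_prod (fun p hp => ?_) fun p hp => ?_
      · exact hf0 p (mem_powerset.1 (mem_filter.1 hT).1 hp)
      · have h3 := mem_powerset.1 (mem_filter.1 hT).1 hp
        exact hg p (hPp p h3) (mem_filter.1 h3).2
    have h3 := rankin P f hf0 k
    have h4 := prod_lower P f hf0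
    have h5 := prod_upper P f hf0
    have h6 : Real.exp (s - 2 * η ^ 2) ≤ ∏ p ∈ P, (1 + f p) := by
      refine le_trans (Real.exp_le_exp.2 ?_) h4
      linarith
    have h7 : (1 / 2 : ℝ) ^ k * ∏ p ∈ P, (1 + 2 * f p) ≤ 1 / 2 * Real.exp (s - 2 * η ^ 2) := by
      have h8 : (1 / 2 : ℝ) ^ k = Real.exp (-(k * Real.log 2)) := by
        rw [Real.exp_neg, Real.exp_nat_mul, Real.exp_log (by norm_num), one_div, inv_pow]
      have h9 : (1 / 2 : ℝ) = Real.exp (-Real.log 2) := by
        rw [Real.exp_neg, Real.exp_log (by norm_num), one_div]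
      calc (1 / 2 : ℝ) ^ k * ∏ p ∈ P, (1 + 2 * f p)
          ≤ Real.exp (-(k * Real.log 2)) * Real.exp (2 * s) := by
            rw [h8]
            exact mul_le_mul_of_nonneg_left h5 (Real.exp_pos _).le
        _ = Real.exp (-(k * Real.log 2) + 2 * s) := (Real.exp_add _ _).symm
        _ ≤ Real.exp (-Real.log 2 + (s - 2 * η ^ 2)) := by
            refine Real.exp_le_exp.2 ?_
            have h10 : K1 * ll * Real.log 2 ≤ k * Real.log 2 :=
              mul_le_mul_of_nonneg_right hk1 hl2.le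
            have h11 : K1 * ll * Real.log 2 = (η * (1 + C) + 2 * η ^ 2 + 1) * ll := by
              rw [hK1]
              field_simp
            have h12 : Real.log 2 ≤ 1 := by
              have := Real.log_two_lt_d9
              linarith
            have h13 : 0 ≤ (η * C + 2 * η ^ 2 + 1) * (ll - 1) := by
              refine mul_nonneg (by positivity) (by linarith)
            have h14 : (η * (1 + C) + 2 * η ^ 2 + 1) * ll =
                η * ll + (η * C + 2 * η ^ 2 + 1) * (ll - 1) + (η * C + 2 * η ^ 2 + 1) := by ring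
            have h15 : η * (ll + C) = η * ll + η * C := by ring
            linarith
        _ = 1 / 2 * Real.exp (s - 2 * η ^ 2) := by
            rw [Real.exp_add, ← h9]
    linarith
  refine le_trans ?_ hmain
  have h1 : Real.exp (-(η * (C + H)) - 2 * η ^ 2) * (Real.log z) ^ η ≤ Real.exp (s - 2 * η ^ 2) := by
    rw [Real.rpow_def_of_pos hlogz0, ← Real.exp_add]
    refine Real.exp_le_exp.2 ?_
    linarith
  have h2 : (1 / (2 * (K1 + 1))) ^ η * (L / ll) ^ η ≤ (Real.log z) ^ η := by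
    rw [← Real.mul_rpow (by positivity) (by positivity)]
    refine Real.rpow_le_rpow (by positivity) ?_ hη.le
    refine le_trans (le_of_eq ?_) hlogz1
    rw [div_mul_div_comm, one_mul]
  calc 1 / 2 * Real.exp (-(η * (C + H)) - 2 * η ^ 2) * (1 / (2 * (K1 + 1))) ^ η * (L / ll) ^ η
      = 1 / 2 * (Real.exp (-(η * (C + H)) - 2 * η ^ 2) *
          ((1 / (2 * (K1 + 1))) ^ η * (L / ll) ^ η)) := by ring
    _ ≤ 1 / 2 * (Real.exp (-(η * (C + H)) - 2 * η ^ 2) * (Real.log z) ^ η) := by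
        refine mul_le_mul_of_nonneg_left ?_ (by norm_num)
        exact mul_le_mul_of_nonneg_left h2 (Real.exp_pos _).le
    _ ≤ 1 / 2 * Real.exp (s - 2 * η ^ 2) := mul_le_mul_of_nonneg_left h1 (by norm_num)

/-! ### The exact exponent -/

/-- products of primes of `P` that are at most `Q` are squarefree numbers up to `Q` -/
theorem sum_subsets_le_of_prod (f : ℕ → ℝ) (hf : ∀ p : ℕ, p.Prime → 0 ≤ f p) (P : Finset ℕ)
    (hP : ∀ p ∈ P, p.Prime) (Q : ℕ) :
    ∑ T ∈ P.powerset.filter (fun T => ∏ p ∈ T, p ≤ Q), ∏ p ∈ T, f p ≤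
      ∑ q ∈ (Icc 1 Q).filter Squarefree, ∏ p ∈ q.primeFactors, f p := by
  classical
  have hprime : ∀ T ∈ P.powerset.filter (fun T => ∏ p ∈ T, p ≤ Q), ∀ p ∈ T, p.Prime := by
    intro T hT p hp
    exact hP p (mem_powerset.1 (mem_filter.1 hT).1 hp)
  have hinj : Set.InjOn (fun T : Finset ℕ => ∏ p ∈ T, p)
      (P.powerset.filter (fun T => ∏ p ∈ T, p ≤ Q) : Finset (Finset ℕ)) := by
    intro T hT T' hT' h
    have h1 := Nat.primeFactors_prod (hprime T (mem_coe.1 hT))
    have h2 := Nat.primeFactors_prod (hprime T' (mem_coe.1 hT'))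
    rw [← h1, ← h2]
    exact congrArg Nat.primeFactors h
  have himg : (P.powerset.filter (fun T => ∏ p ∈ T, p ≤ Q)).image
      (fun T : Finset ℕ => ∏ p ∈ T, p) ⊆ (Icc 1 Q).filter Squarefree := by
    intro q hq
    obtain ⟨T, hT, rfl⟩ := mem_image.1 hq
    have hTp := hprime T hT
    rw [mem_filter, mem_Icc]
    refine ⟨⟨Nat.one_le_iff_ne_zero.2 (prod_ne_zero_iff.2 fun p hp => (hTp p hp).ne_zero),
      (mem_filter.1 hT).2⟩, ?_⟩
    have hpf := Nat.primeFactors_prod hTp
    rw [Nat.squarefree_iff_prime_squarefree]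
    intro p hp hpp
    have hpT : p ∈ T := by
      rw [← hpf, Nat.mem_primeFactors]
      exact ⟨hp, dvd_trans (dvd_mul_right p p) hpp,
        prod_ne_zero_iff.2 fun p hp => (hTp p hp).ne_zero⟩
    rw [← mul_prod_erase T (fun p => p) hpT] at hpp
    have h3 : p ∣ ∏ r ∈ T.erase p, r := Nat.dvd_of_mul_dvd_mul_left hp.pos hpp
    obtain ⟨r, hr, hpr⟩ := (Prime.dvd_finsetProd_iff hp.prime _).1 h3
    have h4 := (Nat.prime_dvd_prime_iff_eq hp (hTp r (mem_of_mem_erase hr))).1 hpr
    exact (mem_erase.1 hr).1 h4.symm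
  calc ∑ T ∈ P.powerset.filter (fun T => ∏ p ∈ T, p ≤ Q), ∏ p ∈ T, f p
      = ∑ q ∈ (P.powerset.filter (fun T => ∏ p ∈ T, p ≤ Q)).image
          (fun T : Finset ℕ => ∏ p ∈ T, p), ∏ p ∈ q.primeFactors, f p := by
        rw [sum_image hinj]
        refine sum_congr rfl fun T hT => ?_
        rw [Nat.primeFactors_prod (hprime T hT)]
    _ ≤ _ := by
        refine sum_le_sum_of_subset_of_nonneg himg fun q hq _ => ?_
        exact prod_nonneg fun p hp => hf p (Nat.prime_of_mem_primeFactors hp)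

/-- Rankin's trick with the exact cutoff -/
theorem rankin_cutoff (P : Finset ℕ) (hP : ∀ p ∈ P, p.Prime) (f : ℕ → ℝ) (hf : ∀ p ∈ P, 0 ≤ f p)
    (Y : ℕ) (hY : 2 ≤ Y) (hPY : ∀ p ∈ P, p ≤ Y) (C₁ : ℝ)
    (hC₁ : ∑ p ∈ P, f p * Real.log p ≤ C₁ * Real.log Y) (Q : ℕ) (hQ1 : 1 ≤ Q)
    (hQ : (2 * C₁ + 1) * Real.log Y ≤ Real.log Q) :
    1 / 2 * ∏ p ∈ P, (1 + f p) ≤
      ∑ T ∈ P.powerset.filter (fun T => ∏ p ∈ T, p ≤ Q), ∏ p ∈ T, f p := by
  classical
  have hlY : 0 < Real.log Y := Real.log_pos (by exact_mod_cast (by omega : 1 < Y))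
  set s : ℝ := 1 / Real.log Y with hs
  have hs0 : 0 < s := by positivity
  have hsY : s * Real.log Y = 1 := by
    rw [hs]
    field_simp
  have hx0 : ∀ p ∈ P, 0 ≤ s * Real.log p := fun p hp =>
    mul_nonneg hs0.le (Real.log_nonneg (by exact_mod_cast (hP p hp).one_le))
  have hx1 : ∀ p ∈ P, s * Real.log p ≤ 1 := by
    intro p hp
    rw [← hsY]
    refine mul_le_mul_of_nonneg_left (Real.log_le_log ?_ ?_) hs0.le
    · exact_mod_cast (hP p hp).pos
    · exact_mod_cast hPY p hp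
  have hprod : ∀ T : Finset ℕ, T ⊆ P →
      ∏ p ∈ T, Real.exp (s * Real.log p) = Real.exp (s * Real.log ((∏ p ∈ T, p : ℕ) : ℝ)) := by
    intro T hT
    rw [← Real.exp_sum, ← mul_sum]
    congr 2
    push_cast
    rw [Real.log_prod]
    intro p hp
    exact_mod_cast (hP p (hT hp)).ne_zero
  have h0 : 0 ≤ ∏ p ∈ P, (1 + f p) := prod_nonneg fun p hp => by
    have := hf p hp
    linarith
  have h1 : ∏ p ∈ P, (1 + f p) =
      ∑ T ∈ P.powerset.filter (fun T => ∏ p ∈ T, p ≤ Q), ∏ p ∈ T, f p +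
      ∑ T ∈ P.powerset.filter (fun T => ¬ ∏ p ∈ T, p ≤ Q), ∏ p ∈ T, f p := by
    rw [prod_one_add, sum_filter_add_sum_filter_not]
  have h2 : ∑ T ∈ P.powerset.filter (fun T => ¬ ∏ p ∈ T, p ≤ Q), ∏ p ∈ T, f p ≤
      Real.exp (-(2 * C₁ + 1)) * ∏ p ∈ P, (1 + f p * Real.exp (s * Real.log p)) := by
    rw [prod_one_add, mul_sum]
    refine (sum_le_sum (g := fun T => Real.exp (-(2 * C₁ + 1)) *
      ∏ p ∈ T, f p * Real.exp (s * Real.log p)) ?_).trans
      (sum_le_sum_of_subset_of_nonneg (filter_subset _ _) ?_)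
    · intro T hT
      have hT1 := mem_powerset.1 (mem_filter.1 hT).1
      have hT2 : Q ≤ ∏ p ∈ T, p := (not_le.1 (mem_filter.1 hT).2).le
      have h0 : 0 ≤ ∏ p ∈ T, f p := prod_nonneg fun p hp => hf p (hT1 hp)
      show ∏ p ∈ T, f p ≤ Real.exp (-(2 * C₁ + 1)) * ∏ p ∈ T, f p * Real.exp (s * Real.log p)
      rw [prod_mul_distrib, hprod T hT1]
      have h3 : 1 ≤ Real.exp (-(2 * C₁ + 1)) *
          Real.exp (s * Real.log ((∏ p ∈ T, p : ℕ) : ℝ)) := by
        rw [← Real.exp_add, Real.one_le_exp_iff]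
        have h4 : Real.log Q ≤ Real.log ((∏ p ∈ T, p : ℕ) : ℝ) :=
          Real.log_le_log (by exact_mod_cast hQ1) (by exact_mod_cast hT2)
        have h5 : s * ((2 * C₁ + 1) * Real.log Y) ≤ s * Real.log ((∏ p ∈ T, p : ℕ) : ℝ) :=
          mul_le_mul_of_nonneg_left (hQ.trans h4) hs0.le
        have h6 : s * ((2 * C₁ + 1) * Real.log Y) = (2 * C₁ + 1) * (s * Real.log Y) := by ring
        rw [h6, hsY] at h5
        linarith
      nlinarith
    · intro T hT _
      refine mul_nonneg (Real.exp_pos _).le (prod_nonneg fun p hp => ?_)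
      exact mul_nonneg (hf p (mem_powerset.1 hT hp)) (Real.exp_pos _).le
  have h3 : ∏ p ∈ P, (1 + f p * Real.exp (s * Real.log p)) ≤
      Real.exp (2 * C₁) * ∏ p ∈ P, (1 + f p) := by
    have h4 : ∏ p ∈ P, (1 + f p * Real.exp (s * Real.log p)) ≤
        ∏ p ∈ P, ((1 + f p) * Real.exp (2 * (s * (f p * Real.log p)))) := by
      refine prod_le_prod (fun p hp => ?_) fun p hp => ?_
      · have := mul_nonneg (hf p hp) (Real.exp_pos (s * Real.log p)).le
        linarith
      · have hfp := hf p hp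
        have hx := hx0 p hp
        have h5 : Real.exp (s * Real.log p) - 1 ≤ 2 * (s * Real.log p) := by
          have h6 := Real.abs_exp_sub_one_le (x := s * Real.log p)
            (by rw [abs_of_nonneg hx]; exact hx1 p hp)
          rw [abs_of_nonneg hx] at h6
          exact (le_abs_self _).trans h6
        have h7 : 0 ≤ Real.exp (s * Real.log p) - 1 := by
          have := Real.add_one_le_exp (s * Real.log p)
          linarith
        have h8 : 1 + f p * (Real.exp (s * Real.log p) - 1) ≤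
            Real.exp (2 * (s * (f p * Real.log p))) := by
          have h9 := Real.add_one_le_exp (2 * (s * (f p * Real.log p)))
          have h10 : f p * (Real.exp (s * Real.log p) - 1) ≤ f p * (2 * (s * Real.log p)) :=
            mul_le_mul_of_nonneg_left h5 hfp
          have h11 : f p * (2 * (s * Real.log p)) = 2 * (s * (f p * Real.log p)) := by ring
          linarith
        have h12 : (1 + f p) * (1 + f p * (Real.exp (s * Real.log p) - 1)) ≤
            (1 + f p) * Real.exp (2 * (s * (f p * Real.log p))) :=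
          mul_le_mul_of_nonneg_left h8 (by linarith)
        have h13 : 0 ≤ f p * (f p * (Real.exp (s * Real.log p) - 1)) :=
          mul_nonneg hfp (mul_nonneg hfp h7)
        have h14 : (1 + f p) * (1 + f p * (Real.exp (s * Real.log p) - 1)) =
            1 + f p * Real.exp (s * Real.log p) +
              f p * (f p * (Real.exp (s * Real.log p) - 1)) := by ring
        linarith
    refine h4.trans ?_
    rw [prod_mul_distrib, ← Real.exp_sum, mul_comm]
    refine mul_le_mul_of_nonneg_right (Real.exp_le_exp.2 ?_) h0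
    rw [← mul_sum, ← mul_sum]
    have h5 : s * ∑ p ∈ P, f p * Real.log p ≤ s * (C₁ * Real.log Y) :=
      mul_le_mul_of_nonneg_left hC₁ hs0.le
    have h6 : s * (C₁ * Real.log Y) = C₁ * (s * Real.log Y) := by ring
    rw [h6, hsY] at h5
    linarith
  have h4 : Real.exp (-(2 * C₁ + 1)) * ∏ p ∈ P, (1 + f p * Real.exp (s * Real.log p)) ≤
      1 / 2 * ∏ p ∈ P, (1 + f p) := by
    calc Real.exp (-(2 * C₁ + 1)) * ∏ p ∈ P, (1 + f p * Real.exp (s * Real.log p))
        ≤ Real.exp (-(2 * C₁ + 1)) * (Real.exp (2 * C₁) * ∏ p ∈ P, (1 + f p)) :=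
          mul_le_mul_of_nonneg_left h3 (Real.exp_pos _).le
      _ = Real.exp (-1) * ∏ p ∈ P, (1 + f p) := by
          rw [← mul_assoc, ← Real.exp_add]
          congr 2
          ring
      _ ≤ 1 / 2 * ∏ p ∈ P, (1 + f p) := by
          refine mul_le_mul_of_nonneg_right ?_ h0
          rw [Real.exp_neg, one_div]
          refine inv_anti₀ (by norm_num) ?_
          have := Real.add_one_le_exp (1 : ℝ)
          linarith
  linarith

/-- the sum of `log p / (p - 1)` over the primes up to `Y` -/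
theorem sum_log_div_sub_one_le (Y : ℕ) (hY : 2 ≤ Y) :
    ∑ p ∈ pr Y, 1 / ((p : ℝ) - 1) * Real.log p ≤ 6 * Real.log Y := by
  have h1 := Pool.Agent.Helper9.Fam.sum_log_div_le Y (by omega)
  have h2 : Real.log 4 ≤ 2 * Real.log Y := by
    have h3 : Real.log 4 = 2 * Real.log 2 := by
      rw [show (4 : ℝ) = 2 ^ 2 by norm_num, Real.log_pow]
      norm_num
    have h4 : Real.log 2 ≤ Real.log Y :=
      Real.log_le_log (by norm_num) (by exact_mod_cast hY)
    linarith
  have h3 : ∑ p ∈ pr Y, 1 / ((p : ℝ) - 1) * Real.log p ≤ 2 * ∑ r ∈ pr Y, Real.log r / r := by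
    rw [mul_sum]
    refine sum_le_sum fun p hp => ?_
    have hp2 : (2 : ℝ) ≤ p := by exact_mod_cast (mem_pr.1 hp).1.two_le
    have hlog : 0 ≤ Real.log p := Real.log_nonneg (by linarith)
    have h4 : 1 / ((p : ℝ) - 1) ≤ 2 / p := by
      rw [div_le_div_iff₀ (by linarith) (by linarith)]
      linarith
    calc 1 / ((p : ℝ) - 1) * Real.log p ≤ 2 / p * Real.log p :=
          mul_le_mul_of_nonneg_right h4 hlog
      _ = 2 * (Real.log p / p) := by ring
  linarith

/-- the Euler product over the primes up to `Y` -/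
theorem prod_ge (h C : ℝ) (h0 : 0 < h) (h1 : h ≤ 1) (hC : 0 ≤ C) : ∃ c : ℝ, 0 < c ∧
    ∀ g : ℕ → ℝ, (∀ p : ℕ, p.Prime → 0 ≤ g p) → (∀ p : ℕ, p.Prime → h - C / p ≤ g p) →
    ∀ Y : ℕ, 2 ≤ Y → c * (Real.log Y) ^ h ≤ ∏ p ∈ pr Y, (1 + g p / ((p : ℝ) - 1)) := by
  obtain ⟨M, hM0, hM⟩ := mertens_two
  refine ⟨Real.exp (-(h * M + 2 * C + 2)), Real.exp_pos _, fun g hg0 hg Y hY => ?_⟩
  have hlY : 0 < Real.log Y := Real.log_pos (by exact_mod_cast (by omega : 1 < Y))
  set f : ℕ → ℝ := fun p => max 0 (h - C / p) / p with hf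
  have hf0 : ∀ p ∈ pr Y, 0 ≤ f p := fun p _ => by
    simp only [hf]
    positivity
  have h2 : ∏ p ∈ pr Y, (1 + f p) ≤ ∏ p ∈ pr Y, (1 + g p / ((p : ℝ) - 1)) := by
    refine prod_le_prod (fun p hp => ?_) fun p hp => ?_
    · have := hf0 p hp
      linarith
    · have hpp := (mem_pr.1 hp).1
      have hp2 : (2 : ℝ) ≤ p := by exact_mod_cast hpp.two_le
      have h3 : max 0 (h - C / p) ≤ g p := max_le (hg0 p hpp) (hg p hpp)
      have h4 : f p ≤ g p / ((p : ℝ) - 1) := by
        simp only [hf]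
        exact div_le_div₀ (hg0 p hpp) h3 (by linarith) (by linarith)
      linarith
  refine le_trans ?_ h2
  refine le_trans ?_ (prod_lower (pr Y) f hf0)
  rw [Real.rpow_def_of_pos hlY, ← Real.exp_add]
  refine Real.exp_le_exp.2 ?_
  have h3 : ∑ p ∈ pr Y, f p ^ 2 ≤ 2 := by
    refine le_trans (sum_le_sum fun p hp => ?_) (sum_sq_le Y)
    have hp2 : (2 : ℝ) ≤ p := by exact_mod_cast (mem_pr.1 hp).1.two_le
    refine pow_le_pow_left₀ (hf0 p hp) ?_ 2
    simp only [hf]
    refine div_le_div_of_nonneg_right (max_le (by norm_num) ?_) (by linarith)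
    have : 0 ≤ C / p := div_nonneg hC (by linarith)
    linarith
  have h4 : h * (Real.log (Real.log Y) - M) - 2 * C ≤ ∑ p ∈ pr Y, f p := by
    have h5 : ∑ p ∈ pr Y, (h * (1 / (p : ℝ)) - C * (1 / (p : ℝ)) ^ 2) ≤ ∑ p ∈ pr Y, f p := by
      refine sum_le_sum fun p hp => ?_
      have hp2 : (2 : ℝ) ≤ p := by exact_mod_cast (mem_pr.1 hp).1.two_le
      have h6 : (h - C / p) / p ≤ f p := by
        simp only [hf]
        exact div_le_div_of_nonneg_right (le_max_right _ _) (by linarith)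
      refine le_trans (le_of_eq ?_) h6
      field_simp
    rw [sum_sub_distrib, ← mul_sum, ← mul_sum] at h5
    have h6 := (abs_le.1 (hM Y hY)).1
    have h7 := sum_sq_le Y
    have h8 : h * (Real.log (Real.log Y) - M) ≤ h * ∑ p ∈ pr Y, 1 / (p : ℝ) :=
      mul_le_mul_of_nonneg_left (by linarith) h0.le
    have h9 : C * ∑ p ∈ pr Y, (1 / (p : ℝ)) ^ 2 ≤ C * 2 := mul_le_mul_of_nonneg_left h7 hC
    linarith
  have h5 : h * (Real.log (Real.log Y) - M) = h * Real.log (Real.log Y) - h * M := by ring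
  have h6 : Real.log (Real.log Y) * h = h * Real.log (Real.log Y) := mul_comm _ _
  linarith

/-- the sum over squarefree numbers with the exact exponent -/
theorem sum_lower (h C : ℝ) (h0 : 0 < h) (h1 : h ≤ 1) (hC : 0 ≤ C) : ∃ c > 0, ∀ g : ℕ → ℝ,
    (∀ p, p.Prime → 0 ≤ g p) → (∀ p, p.Prime → h - C / p ≤ g p) → ∀ Q : ℕ, 2 ≤ Q →
    c * (Real.log Q) ^ h ≤
      ∑ q ∈ (Finset.Icc 1 Q).filter Squarefree, ∏ p ∈ q.primeFactors, g p / ((p : ℝ) - 1) := by
  classical
  obtain ⟨c, hc0, hc⟩ := prod_ge h C h0 h1 hC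
  have hl4 : 0 < Real.log 4 := Real.log_pos (by norm_num)
  set c1 : ℝ := 1 / 2 * c * (1 / 26) ^ h with hc1
  set c2 : ℝ := (1 / (13 * Real.log 4)) ^ h with hc2
  have hc1p : 0 < c1 := by positivity
  have hc2p : 0 < c2 := by positivity
  refine ⟨min c1 c2, lt_min hc1p hc2p, fun g hg0 hg Q hQ2 => ?_⟩
  have hQr : (2 : ℝ) ≤ Q := by exact_mod_cast hQ2
  have hL0 : 0 < Real.log Q := Real.log_pos (by linarith)
  have hLh : 0 ≤ (Real.log Q) ^ h := Real.rpow_nonneg hL0.le h
  -- truncation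
  set g1 : ℕ → ℝ := fun p => min (g p) 1 with hg1
  have hg10 : ∀ p : ℕ, p.Prime → 0 ≤ g1 p := fun p hp => le_min (hg0 p hp) zero_le_one
  have hg1h : ∀ p : ℕ, p.Prime → h - C / p ≤ g1 p := by
    intro p hp
    refine le_min (hg p hp) ?_
    have : 0 ≤ C / p := div_nonneg hC (Nat.cast_nonneg p)
    linarith
  set f : ℕ → ℝ := fun p => g1 p / ((p : ℝ) - 1) with hf
  have hsub : ∀ p : ℕ, p.Prime → (0 : ℝ) < (p : ℝ) - 1 := by
    intro p hp
    have : (2 : ℝ) ≤ p := by exact_mod_cast hp.two_le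
    linarith
  have hf0 : ∀ p : ℕ, p.Prime → 0 ≤ f p := fun p hp =>
    div_nonneg (hg10 p hp) (hsub p hp).le
  have hle : ∑ q ∈ (Finset.Icc 1 Q).filter Squarefree, ∏ p ∈ q.primeFactors, f p ≤
      ∑ q ∈ (Finset.Icc 1 Q).filter Squarefree, ∏ p ∈ q.primeFactors, g p / ((p : ℝ) - 1) := by
    refine sum_le_sum fun q _ => prod_le_prod (fun p hp => ?_) fun p hp => ?_
    · exact hf0 p (Nat.prime_of_mem_primeFactors hp)
    · exact div_le_div_of_nonneg_right (min_le_left _ _)
        (hsub p (Nat.prime_of_mem_primeFactors hp)).le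
  refine le_trans ?_ hle
  rcases lt_or_ge (Real.log Q) (13 * Real.log 4) with hsmall | hbig
  · -- small `Q`
    have h2 : (1 : ℝ) ≤ ∑ q ∈ (Finset.Icc 1 Q).filter Squarefree, ∏ p ∈ q.primeFactors, f p := by
      have h3 : ∏ p ∈ (1 : ℕ).primeFactors, f p ≤
          ∑ q ∈ (Finset.Icc 1 Q).filter Squarefree, ∏ p ∈ q.primeFactors, f p := by
        refine single_le_sum (f := fun q : ℕ => ∏ p ∈ q.primeFactors, f p) (fun q _ => ?_) ?_
        · exact prod_nonneg fun p hp => hf0 p (Nat.prime_of_mem_primeFactors hp)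
        · rw [mem_filter, mem_Icc]
          exact ⟨⟨le_refl 1, by omega⟩, squarefree_one⟩
      simpa using h3
    refine le_trans ?_ h2
    calc min c1 c2 * (Real.log Q) ^ h ≤ c2 * (13 * Real.log 4) ^ h := by
          refine mul_le_mul (min_le_right _ _) ?_ hLh hc2p.le
          exact Real.rpow_le_rpow hL0.le hsmall.le h0.le
      _ = 1 := by
          rw [hc2, ← Real.mul_rpow (by positivity) (by positivity)]
          have : 1 / (13 * Real.log 4) * (13 * Real.log 4) = 1 := by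
            field_simp
          rw [this, Real.one_rpow]
  · -- large `Q`
    set y : ℝ := Real.exp (Real.log Q / 13) with hy
    have hy4 : 4 ≤ y := by
      have h2 : Real.log 4 ≤ Real.log Q / 13 := by linarith
      have h3 := Real.exp_le_exp.2 h2
      rwa [Real.exp_log (by norm_num)] at h3
    set Y : ℕ := ⌊y⌋₊ with hYdef
    have hY1 : (Y : ℝ) ≤ y := Nat.floor_le (by linarith)
    have hY2 : y / 2 ≤ Y := by
      have := Nat.lt_floor_add_one y
      rw [← hYdef] at this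
      linarith
    have hY : 2 ≤ Y := by
      have : (2 : ℝ) ≤ Y := by linarith
      exact_mod_cast this
    have hYpos : (0 : ℝ) < Y := by exact_mod_cast (by omega : 0 < Y)
    have hlogY1 : 13 * Real.log Y ≤ Real.log Q := by
      have h2 := Real.log_le_log hYpos hY1
      rw [hy, Real.log_exp] at h2
      linarith
    have hlogY2 : Real.log Q / 26 ≤ Real.log Y := by
      have h2 : Real.log (y / 2) ≤ Real.log Y := Real.log_le_log (by linarith) hY2
      rw [Real.log_div (by linarith) (by norm_num), hy, Real.log_exp] at h2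
      have h3 : Real.log 4 = 2 * Real.log 2 := by
        rw [show (4 : ℝ) = 2 ^ 2 by norm_num, Real.log_pow]
        norm_num
      linarith
    have hsumlog : ∑ p ∈ pr Y, f p * Real.log p ≤ 6 * Real.log Y := by
      refine le_trans (sum_le_sum fun p hp => ?_) (sum_log_div_sub_one_le Y hY)
      have hpp := (mem_pr.1 hp).1
      refine mul_le_mul_of_nonneg_right ?_ (Real.log_nonneg (by exact_mod_cast hpp.one_le))
      exact div_le_div_of_nonneg_right (min_le_right _ _) (hsub p hpp).le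
    have h2 := rankin_cutoff (pr Y) (fun p hp => (mem_pr.1 hp).1) f
      (fun p hp => hf0 p (mem_pr.1 hp).1) Y hY (fun p hp => (mem_pr.1 hp).2) 6 hsumlog Q
      (by omega) (by norm_num; linarith)
    have h3 := sum_subsets_le_of_prod f hf0 (pr Y) (fun p hp => (mem_pr.1 hp).1) Q
    have h4 := hc g1 hg10 hg1h Y hY
    refine le_trans ?_ (h2.trans h3)
    calc min c1 c2 * (Real.log Q) ^ h ≤ c1 * (Real.log Q) ^ h :=
          mul_le_mul_of_nonneg_right (min_le_left _ _) hLh
      _ = 1 / 2 * (c * ((1 / 26) ^ h * (Real.log Q) ^ h)) := by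
          rw [hc1]
          ring
      _ ≤ 1 / 2 * (c * (Real.log Y) ^ h) := by
          refine mul_le_mul_of_nonneg_left (mul_le_mul_of_nonneg_left ?_ hc0.le) (by norm_num)
          rw [← Real.mul_rpow (by norm_num) hL0.le]
          refine Real.rpow_le_rpow (by positivity) ?_ h0.le
          linarith
      _ ≤ 1 / 2 * ∏ p ∈ pr Y, (1 + f p) := mul_le_mul_of_nonneg_left h4 (by norm_num)

end Pool.Agent.Helper78.SV
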