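import Mathlib
import Pool.Agent.Helper9.Fam.Mertens
import Pool.Agent.Helper78.SV.Sum

/-!
A lower bound for sums of multiplicative functions over squarefree numbers, exponential form.
-/

set_option autoImplicit false

open Finset Filter

namespace Pool.Agent.Helper78.SV

open Pool.Agent.Helper9.Fam (pr mem_pr sum_log_div_le)

/-- the sum of `∏ g p / (p - 1)` over the squarefree `q ≤ Q` is at least a constant times the
exponential of the sum of `g p / p` over the primes `p ≤ Q`, for all `0 ≤ g ≤ G` -/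
theorem sum_exp (G : ℝ) (hG : 0 < G) : ∃ c > 0, ∀ g : ℕ → ℝ, (∀ p, p.Prime → 0 ≤ g p) →
    (∀ p, p.Prime → g p ≤ G) → ∀ Q : ℕ, 1 ≤ Q →
    c * Real.exp (∑ p ∈ (Finset.Icc 1 Q).filter Nat.Prime, g p / p) ≤
      ∑ q ∈ (Finset.Icc 1 Q).filter Squarefree, ∏ p ∈ q.primeFactors, (g p / ((p : ℝ) - 1)) := by
  classical
  have hl2 : 0 < Real.log 2 := Real.log_pos (by norm_num)
  have hl4 : Real.log 4 = 2 * Real.log 2 := by
    rw [show (4 : ℝ) = 2 ^ 2 by norm_num, Real.log_pow]
    norm_num
  have hl4p : 0 < Real.log 4 := by linarith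
  set u : ℝ := 12 * G + 1 with hu
  have hu1 : 1 ≤ u := by linarith
  set c1 : ℝ := 1 / 2 * Real.exp (-(8 * G ^ 2) - 4 * u * G) with hc1
  set c2 : ℝ := Real.exp (-(2 * G * (u + 1))) with hc2
  have hc1p : 0 < c1 := by positivity
  have hc2p : 0 < c2 := by positivity
  refine ⟨min c1 c2, lt_min hc1p hc2p, fun g hg0 hgG Q hQ1 => ?_⟩
  have hQr : (1 : ℝ) ≤ Q := by exact_mod_cast hQ1
  have hL0 : 0 ≤ Real.log Q := Real.log_nonneg hQr
  set f : ℕ → ℝ := fun p => g p / ((p : ℝ) - 1) with hf
  have hsub : ∀ p : ℕ, p.Prime → (0 : ℝ) < (p : ℝ) - 1 := by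
    intro p hp
    have : (2 : ℝ) ≤ p := by exact_mod_cast hp.two_le
    linarith
  have hf0 : ∀ p : ℕ, p.Prime → 0 ≤ f p := fun p hp =>
    div_nonneg (hg0 p hp) (hsub p hp).le
  have hpr : (Finset.Icc 1 Q).filter Nat.Prime = pr Q := rfl
  rw [hpr]
  rcases lt_or_ge (Real.log Q) (u * Real.log 4) with hsmall | hbig
  · -- small `Q`
    have h2 : (1 : ℝ) ≤ ∑ q ∈ (Finset.Icc 1 Q).filter Squarefree, ∏ p ∈ q.primeFactors, f p := by
      have h3 : ∏ p ∈ (1 : ℕ).primeFactors, f p ≤
          ∑ q ∈ (Finset.Icc 1 Q).filter Squarefree, ∏ p ∈ q.primeFactors, f p := by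
        refine single_le_sum (f := fun q : ℕ => ∏ p ∈ q.primeFactors, f p) (fun q _ => ?_) ?_
        · exact prod_nonneg fun p hp => hf0 p (Nat.prime_of_mem_primeFactors hp)
        · rw [mem_filter, mem_Icc]
          exact ⟨⟨le_refl 1, by omega⟩, squarefree_one⟩
      simpa using h3
    refine le_trans ?_ h2
    have h3 : ∑ p ∈ pr Q, g p / p ≤ 2 * G * (u + 1) := by
      have h4 : ∑ p ∈ pr Q, g p / p ≤ G / Real.log 2 * ∑ r ∈ pr Q, Real.log r / r := by
        rw [mul_sum]
        refine sum_le_sum fun p hp => ?_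
        have hpp := (mem_pr.1 hp).1
        have hp2 : (2 : ℝ) ≤ p := by exact_mod_cast hpp.two_le
        have h5 : Real.log 2 ≤ Real.log p := Real.log_le_log (by norm_num) hp2
        have h6 : g p ≤ G / Real.log 2 * Real.log p := by
          rw [div_mul_eq_mul_div, le_div_iff₀ hl2]
          exact mul_le_mul (hgG p hpp) h5 hl2.le hG.le
        calc g p / p ≤ G / Real.log 2 * Real.log p / p :=
              div_le_div_of_nonneg_right h6 (by linarith)
          _ = G / Real.log 2 * (Real.log p / p) := by ring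
      have h5 := sum_log_div_le Q hQ1
      have h6 : G / Real.log 2 * ∑ r ∈ pr Q, Real.log r / r ≤
          G / Real.log 2 * ((u + 1) * (2 * Real.log 2)) := by
        refine mul_le_mul_of_nonneg_left ?_ (by positivity)
        rw [hl4] at h5 hsmall
        linarith
      have h7 : G / Real.log 2 * ((u + 1) * (2 * Real.log 2)) = 2 * G * (u + 1) := by
        field_simp
      linarith
    calc min c1 c2 * Real.exp (∑ p ∈ pr Q, g p / p)
        ≤ c2 * Real.exp (2 * G * (u + 1)) :=
          mul_le_mul (min_le_right _ _) (Real.exp_le_exp.2 h3) (Real.exp_pos _).le hc2p.le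
      _ = 1 := by
          rw [hc2, ← Real.exp_add]
          simp
  · -- large `Q`
    have hLu : u * Real.log 4 ≤ Real.log Q := hbig
    have hLpos : 0 < Real.log Q := lt_of_lt_of_le (by positivity) hLu
    set y : ℝ := Real.exp (Real.log Q / u) with hy
    have hu0 : 0 < u := by linarith
    have hy4 : 4 ≤ y := by
      have h2 : Real.log 4 ≤ Real.log Q / u := by
        rw [le_div_iff₀ hu0]
        linarith
      have h3 := Real.exp_le_exp.2 h2
      rwa [Real.exp_log (by norm_num)] at h3
    set Y : ℕ := ⌊y⌋₊ with hYdef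
    have hY1 : (Y : ℝ) ≤ y := Nat.floor_le (by linarith)
    have hY2 : y / 2 ≤ Y := by
      have := Nat.lt_floor_add_one y
      rw [← hYdef] at this
      linarith
    have hY : 2 ≤ Y := by
      have : (2 : ℝ) ≤ Y := by linarith
      exact_mod_cast this
    have hYpos : (0 : ℝ) < Y := by exact_mod_cast (by omega : 0 < Y)
    have hlY : 0 < Real.log Y := Real.log_pos (by exact_mod_cast (by omega : 1 < Y))
    have hlogY1 : u * Real.log Y ≤ Real.log Q := by
      have h2 := Real.log_le_log hYpos hY1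
      rw [hy, Real.log_exp, le_div_iff₀ hu0] at h2
      linarith
    have hlogY2 : Real.log Q ≤ 2 * u * Real.log Y := by
      have h2 : Real.log (y / 2) ≤ Real.log Y := Real.log_le_log (by linarith) hY2
      rw [Real.log_div (by linarith) (by norm_num), hy, Real.log_exp] at h2
      have h3 : Real.log 4 ≤ Real.log Q / u := by
        rw [le_div_iff₀ hu0]
        linarith
      have h4 : Real.log Q / u ≤ 2 * Real.log Y := by linarith
      rw [div_le_iff₀ hu0] at h4
      linarith
    have hsumlog : ∑ p ∈ pr Y, f p * Real.log p ≤ 6 * G * Real.log Y := by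
      have h2 : ∑ p ∈ pr Y, f p * Real.log p ≤
          G * ∑ p ∈ pr Y, 1 / ((p : ℝ) - 1) * Real.log p := by
        rw [mul_sum]
        refine sum_le_sum fun p hp => ?_
        have hpp := (mem_pr.1 hp).1
        have h3 : f p ≤ G * (1 / ((p : ℝ) - 1)) := by
          simp only [hf]
          rw [mul_one_div]
          exact div_le_div_of_nonneg_right (hgG p hpp) (hsub p hpp).le
        rw [← mul_assoc]
        exact mul_le_mul_of_nonneg_right h3 (Real.log_nonneg (by exact_mod_cast hpp.one_le))
      have h3 := mul_le_mul_of_nonneg_left (sum_log_div_sub_one_le Y hY) hG.le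
      linarith
    have h2 := rankin_cutoff (pr Y) (fun p hp => (mem_pr.1 hp).1) f
      (fun p hp => hf0 p (mem_pr.1 hp).1) Y hY (fun p hp => (mem_pr.1 hp).2) (6 * G) hsumlog Q
      hQ1 (by
        have h3 : 2 * (6 * G) + 1 = u := by
          rw [hu]
          ring
        rw [h3]
        exact hlogY1)
    have h3 := sum_subsets_le_of_prod f hf0 (pr Y) (fun p hp => (mem_pr.1 hp).1) Q
    have h4 := prod_lower (pr Y) f (fun p hp => hf0 p (mem_pr.1 hp).1)
    -- the sum of the squares
    have h5 : ∑ p ∈ pr Y, f p ^ 2 ≤ 8 * G ^ 2 := by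
      have h6 : ∑ p ∈ pr Y, f p ^ 2 ≤ 4 * G ^ 2 * ∑ p ∈ pr Y, (1 / (p : ℝ)) ^ 2 := by
        rw [mul_sum]
        refine sum_le_sum fun p hp => ?_
        have hpp := (mem_pr.1 hp).1
        have hp2 : (2 : ℝ) ≤ p := by exact_mod_cast hpp.two_le
        have h7 : f p ≤ 2 * G * (1 / (p : ℝ)) := by
          simp only [hf]
          rw [mul_one_div, div_le_div_iff₀ (hsub p hpp) (by linarith)]
          have h8 : g p * p ≤ G * p := mul_le_mul_of_nonneg_right (hgG p hpp) (by linarith)
          nlinarith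
        calc f p ^ 2 ≤ (2 * G * (1 / (p : ℝ))) ^ 2 := pow_le_pow_left₀ (hf0 p hpp) h7 2
          _ = 4 * G ^ 2 * (1 / (p : ℝ)) ^ 2 := by ring
      have h7 := mul_le_mul_of_nonneg_left (sum_sq_le Y) (show 0 ≤ 4 * G ^ 2 by positivity)
      linarith
    -- the sum over the primes up to `Q`
    have h6 : ∑ p ∈ pr Q, g p / p ≤ ∑ p ∈ pr Y, f p + 4 * u * G := by
      have h7 : ∑ p ∈ pr Q, g p / p ≤ ∑ p ∈ pr Q, ((if p ≤ Y then f p else 0) +
          G / Real.log Y * (Real.log p / p)) := by
        refine sum_le_sum fun p hp => ?_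
        have hpp := (mem_pr.1 hp).1
        have hp2 : (2 : ℝ) ≤ p := by exact_mod_cast hpp.two_le
        have hlp : 0 ≤ Real.log p := Real.log_nonneg (by linarith)
        split_ifs with hpY
        · have h8 : g p / p ≤ f p := by
            simp only [hf]
            exact div_le_div_of_nonneg_left (hg0 p hpp) (hsub p hpp) (by linarith)
          have h9 : 0 ≤ G / Real.log Y * (Real.log p / p) := by positivity
          linarith
        · have h8 : Real.log Y ≤ Real.log p :=
            Real.log_le_log hYpos (by exact_mod_cast (not_le.1 hpY).le)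
          have h9 : g p ≤ G / Real.log Y * Real.log p := by
            rw [div_mul_eq_mul_div, le_div_iff₀ hlY]
            exact mul_le_mul (hgG p hpp) h8 hlY.le hG.le
          calc g p / p ≤ G / Real.log Y * Real.log p / p :=
                div_le_div_of_nonneg_right h9 (by linarith)
            _ = 0 + G / Real.log Y * (Real.log p / p) := by ring
      rw [sum_add_distrib, ← mul_sum, ← sum_filter] at h7
      have h8 : ∑ p ∈ (pr Q).filter (fun p => p ≤ Y), f p ≤ ∑ p ∈ pr Y, f p := by
        refine sum_le_sum_of_subset_of_nonneg ?_ fun p hp _ => hf0 p (mem_pr.1 hp).1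
        intro p hp
        rw [mem_filter, mem_pr] at hp
        exact mem_pr.2 ⟨hp.1.1, hp.2⟩
      have h9 := sum_log_div_le Q hQ1
      have h10 : G / Real.log Y * ∑ r ∈ pr Q, Real.log r / r ≤ 4 * u * G := by
        have h11 : Real.log 4 ≤ Real.log Q := by nlinarith
        have h12 : ∑ r ∈ pr Q, Real.log r / r ≤ 4 * u * Real.log Y := by linarith
        calc G / Real.log Y * ∑ r ∈ pr Q, Real.log r / r
            ≤ G / Real.log Y * (4 * u * Real.log Y) :=
              mul_le_mul_of_nonneg_left h12 (by positivity)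
          _ = 4 * u * G := by
              field_simp
      linarith
    refine le_trans ?_ (h2.trans h3)
    calc min c1 c2 * Real.exp (∑ p ∈ pr Q, g p / p)
        ≤ c1 * Real.exp (∑ p ∈ pr Q, g p / p) :=
          mul_le_mul_of_nonneg_right (min_le_left _ _) (Real.exp_pos _).le
      _ = 1 / 2 * Real.exp (-(8 * G ^ 2) - 4 * u * G + ∑ p ∈ pr Q, g p / p) := by
          rw [hc1, mul_assoc, ← Real.exp_add]
      _ ≤ 1 / 2 * Real.exp (∑ p ∈ pr Y, f p - ∑ p ∈ pr Y, f p ^ 2) := by
          refine mul_le_mul_of_nonneg_left (Real.exp_le_exp.2 ?_) (by norm_num)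
          linarith
      _ ≤ 1 / 2 * ∏ p ∈ pr Y, (1 + f p) := mul_le_mul_of_nonneg_left h4 (by norm_num)

end Pool.Agent.Helper78.SV
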